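import Pool.Agent.H961.T4.Stm3

/-!
Project PN: comparison of the traces in a good environment, several laps
-/

set_option autoImplicit false
set_option linter.unusedSectionVars false
set_option linter.unusedVariables false

namespace Pool.Agent.H333.PN

open Finset Equiv Matrix Q292.LC
open Pool.Agent.H961.T2 Pool.Agent.H961.T3 Pool.Agent.H961.T4
open Pool.Agent.Q257.LC

theorem numX2 (Z C K J a N s t u Y : ℝ) (hZ : 3 ≤ Z) (hC : C ≤ Z) (hC0 : 0 ≤ C) (ht : 1 ≤ t)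
    (hu : 1 ≤ u) (hK : K = t ^ 4) (hJ : J = u ^ 4) (ha : 0 ≤ a) (hN : 0 ≤ N) (hY : 0 ≤ Y)
    (hs : s = Y / (J * K)) :
    2 * Real.sqrt (C * (Z + 1) * Real.sqrt (J * K) * s * a * (s * N)) + s * a ≤
      Z ^ 2 * Y * ((u ^ 3)⁻¹ * t⁻¹ * (a + N / K)) := by
  have ht0 : 0 < t := by linarith
  have hu0 : 0 < u := by linarith
  have hK0 : 0 < K := by rw [hK]; positivity
  have hJ0 : 0 < J := by rw [hJ]; positivity
  have hsq : Real.sqrt (J * K) = u ^ 2 * t ^ 2 := by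
    rw [hK, hJ, show u ^ 4 * t ^ 4 = (u ^ 2 * t ^ 2) ^ 2 by ring, Real.sqrt_sq (by positivity)]
  obtain ⟨X, hX⟩ : ∃ X, X = a + N / K := ⟨_, rfl⟩
  have hNK : 0 ≤ N / K := div_nonneg hN hK0.le
  have hX0 : 0 ≤ X := by rw [hX]; linarith
  have hs0 : 0 ≤ s := by rw [hs]; exact div_nonneg hY (by positivity)
  have haN : a * N ≤ (t ^ 2 * X / 2) ^ 2 := by
    have h1 : a * (N / K) ≤ (X / 2) ^ 2 := by
      rw [hX]
      nlinarith [sq_nonneg (a - N / K)]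
    have h2 : a * N = t ^ 4 * (a * (N / K)) := by
      rw [← hK]
      field_simp
    rw [h2]
    calc t ^ 4 * (a * (N / K)) ≤ t ^ 4 * (X / 2) ^ 2 :=
          mul_le_mul_of_nonneg_left h1 (by positivity)
      _ = (t ^ 2 * X / 2) ^ 2 := by ring
  have hCZ : C * (Z + 1) ≤ 4 * Z ^ 2 := by nlinarith
  have hrad : C * (Z + 1) * Real.sqrt (J * K) * s * a * (s * N) ≤
      (Z * (u * t ^ 3) * s * X) ^ 2 := by
    rw [hsq]
    calc C * (Z + 1) * (u ^ 2 * t ^ 2) * s * a * (s * N) =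
          (C * (Z + 1)) * (u ^ 2 * t ^ 2 * s ^ 2) * (a * N) := by ring
      _ ≤ (4 * Z ^ 2) * (u ^ 2 * t ^ 2 * s ^ 2) * (t ^ 2 * X / 2) ^ 2 := by
          refine mul_le_mul (mul_le_mul_of_nonneg_right hCZ (by positivity)) haN
            (mul_nonneg ha hN) (by positivity)
      _ = (Z * (u * t ^ 3) * s * X) ^ 2 := by ring
  have hroot : Real.sqrt (C * (Z + 1) * Real.sqrt (J * K) * s * a * (s * N)) ≤
      Z * (u * t ^ 3) * s * X := by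
    refine (Real.sqrt_le_sqrt hrad).trans (le_of_eq ?_)
    exact Real.sqrt_sq (by positivity)
  have e1 : u * t ^ 3 * s = Y * ((u ^ 3)⁻¹ * t⁻¹) := by
    rw [hs, hK, hJ]
    field_simp
  have h3 : s * a ≤ Y * ((u ^ 3)⁻¹ * t⁻¹) * X := by
    rw [← e1]
    have h4 : s * a ≤ (u * t ^ 3 * s) * a := by
      have h5 : (1 : ℝ) ≤ u * t ^ 3 := one_le_mul_of_one_le_of_one_le hu (one_le_pow₀ ht)
      have h6 : 0 ≤ s * a := mul_nonneg hs0 ha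
      nlinarith
    refine h4.trans (mul_le_mul_of_nonneg_left ?_ (by positivity))
    rw [hX]
    linarith
  have e2 : Z * (u * t ^ 3) * s * X = Z * (Y * ((u ^ 3)⁻¹ * t⁻¹) * X) := by rw [← e1]; ring
  have hW : 0 ≤ Y * ((u ^ 3)⁻¹ * t⁻¹) * X := by positivity
  rw [← hX]
  calc 2 * Real.sqrt (C * (Z + 1) * Real.sqrt (J * K) * s * a * (s * N)) + s * a
      ≤ 2 * (Z * (Y * ((u ^ 3)⁻¹ * t⁻¹) * X)) + Y * ((u ^ 3)⁻¹ * t⁻¹) * X := by
        rw [← e2]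
        linarith
    _ = (2 * Z + 1) * (Y * ((u ^ 3)⁻¹ * t⁻¹) * X) := by ring
    _ ≤ Z ^ 2 * (Y * ((u ^ 3)⁻¹ * t⁻¹) * X) := mul_le_mul_of_nonneg_right (by nlinarith) hW
    _ = Z ^ 2 * Y * ((u ^ 3)⁻¹ * t⁻¹ * X) := by ring

/-- the sup bound from the pointwise bound of several laps -/
theorem numY2 (Z P K I J M : ℝ) (hP : 0 ≤ P) (hK0 : 0 < K) (hI : 0 < I) (hJ : 0 < J)
    (hJI : J ≤ 3 * I) (hM : I * K ≤ M) (hZ : 6 ≤ Z) :
    P * (1 / (I * K) + 1 / M) ≤ Z * P / (J * K) := by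
  have hIK : 0 < I * K := mul_pos hI hK0
  have hJK : 0 < J * K := mul_pos hJ hK0
  have h2 : 1 / M ≤ 1 / (I * K) := one_div_le_one_div_of_le hIK hM
  have h1 : 1 / (I * K) ≤ 3 / (J * K) := by
    rw [div_le_div_iff₀ hIK hJK]
    nlinarith
  calc P * (1 / (I * K) + 1 / M) ≤ P * (3 / (J * K) + 3 / (J * K)) :=
        mul_le_mul_of_nonneg_left (by linarith) hP
    _ = 6 * (P / (J * K)) := by ring
    _ ≤ Z * (P / (J * K)) := mul_le_mul_of_nonneg_right hZ (div_nonneg hP hJK.le)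
    _ = Z * P / (J * K) := by ring

/-- the sup bound for the free kernel -/
theorem numZ2 (d : ℕ) (hd : 2 ≤ d) (Z Cf K I J M P u : ℝ) (hCf : 0 ≤ Cf) (hK0 : 0 < K)
    (hI : 0 < I) (hJ : 0 < J) (hJI : J ≤ 3 * I) (hM : I * K ≤ M) (hZ : 6 * Cf ≤ Z) (hP : 1 ≤ P)
    (hZ0 : 0 ≤ Z) (hu : I * K ≤ u) :
    Cf * ((1 + u) ^ (-(d / 2 : ℝ)) + 1 / M) ≤ Z * P / (J * K) := by
  have hIK : 0 < I * K := mul_pos hI hK0
  have hJK : 0 < J * K := mul_pos hJ hK0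
  have hd2 : (2 : ℝ) ≤ d := by exact_mod_cast hd
  have h0 : 1 / (I * K) ≤ 3 / (J * K) := by
    rw [div_le_div_iff₀ hIK hJK]
    nlinarith
  have h1 : (1 + u) ^ (-(d / 2 : ℝ)) ≤ 3 / (J * K) := by
    calc (1 + u) ^ (-(d / 2 : ℝ)) ≤ (1 + u) ^ (-1 : ℝ) :=
          Real.rpow_le_rpow_of_exponent_le (by linarith) (by linarith)
      _ = 1 / (1 + u) := by rw [Real.rpow_neg_one, one_div]
      _ ≤ 1 / (I * K) := one_div_le_one_div_of_le hIK (by linarith)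
      _ ≤ 3 / (J * K) := h0
  have h2 : 1 / M ≤ 3 / (J * K) := (one_div_le_one_div_of_le hIK hM).trans h0
  calc Cf * ((1 + u) ^ (-(d / 2 : ℝ)) + 1 / M) ≤ Cf * (3 / (J * K) + 3 / (J * K)) :=
        mul_le_mul_of_nonneg_left (by linarith) hCf
    _ = (6 * Cf) / (J * K) := by ring
    _ ≤ Z * P / (J * K) := by
        refine div_le_div_of_nonneg_right ?_ hJK.le
        nlinarith

theorem inv_image {V : Type} [Fintype V] [DecidableEq V] {g : Perm V} {A : Finset V}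
    (h : Inv g A) : A.image g = A := by
  refine eq_of_subset_of_card_le ?_ ?_
  · intro y hy
    obtain ⟨a, ha, rfl⟩ := mem_image.1 hy
    exact h a ha
  · rw [card_image_of_injective A g.injective]

theorem enm (hENT : S_ENT) (hHSM : S_HSM) (hTRM : S_TRM) (hKP : S_KP) : S_ENM := by
  intro d hd
  obtain ⟨C1, m1, hC1, hker⟩ := hKP d hd
  obtain ⟨C2, m2, hC2, hent⟩ := hENT d hd
  obtain ⟨Cf, hCf, hfre⟩ := fre d (by omega)
  obtain ⟨Ch, hCh, hhsm⟩ := hHSM d (by omega)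
  have hd1 : 1 ≤ d := by omega
  refine ⟨C1 + C2 + ⌈6 * Cf⌉₊ + ⌈Ch⌉₊ + 6, m1 + m2 + 3, by omega, ?_⟩
  intro Z hZ L K lam r ρ κ₀ _ hlam hρ hκ hr hL hK hKL
  have hZ1 : 1 ≤ Z := by omega
  have hp1 : Z ^ m1 ≤ Z ^ (m1 + m2 + 3) := Nat.pow_le_pow_right hZ1 (by omega)
  have hp2 : Z ^ m2 ≤ Z ^ (m1 + m2 + 3) := Nat.pow_le_pow_right hZ1 (by omega)
  have hp3 : 1 ≤ Z ^ (m1 + m2 + 3) := Nat.one_le_pow _ _ hZ1
  have hK1 : 1 ≤ K := by omega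
  have hL3 : 3 ≤ L := by omega
  have hKL' : K ≤ L ^ d := le_trans (Nat.le_mul_of_pos_left K hK1) hKL
  obtain ⟨q1, hq1⟩ := hker Z (by omega) L K lam r ρ κ₀ hlam hρ hκ (by omega) (by omega)
    (by omega)
  obtain ⟨q2, hq2⟩ := hent Z (by omega) L K lam r ρ κ₀ hlam hρ hκ (by omega) (by omega)
    (by omega) hKL'
  obtain ⟨q3, hq3⟩ := hfre L hL3 (K * K)
  obtain ⟨q4, hq4⟩ := hhsm L hL3 K K
  refine ⟨q1 + q2 + q3 + q4 + 4 * d + 2, ?_⟩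
  intro q hq σ hσ δ h1 h2 ω A hEv hInv j hj
  have hqr : (2 : ℝ) ≤ q := by
    have : 2 ≤ q := by omega
    exact_mod_cast this
  have hδ : 0 < δ := by
    by_contra h
    push Not at h
    nlinarith
  have hδ1 : δ ≤ 1 := by nlinarith
  have hL0 : (0 : ℝ) < L := by
    have : 0 < L := by omega
    exact_mod_cast this
  have hK0 : (0 : ℝ) < K := by exact_mod_cast hK1
  have hZ6 : (6 : ℝ) ≤ Z := by
    have : 6 ≤ Z := by omega
    exact_mod_cast this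
  have hZ1r : (1 : ℝ) ≤ Z := by linarith
  have hKLr : (K : ℝ) * K ≤ (L : ℝ) ^ d := by exact_mod_cast hKL
  have hA0 : (0 : ℝ) ≤ (A.card : ℝ) + (L : ℝ) ^ d / K := by positivity
  rcases Nat.eq_zero_or_pos j with rfl | hj0
  · have h := hq2 q (by omega) σ hσ δ h1 h2 ω A hEv 0
    refine h.trans ?_
    rw [Nat.cast_zero, zero_add, Real.one_rpow, one_mul, one_mul]
    refine mul_le_mul_of_nonneg_right (mul_le_mul_of_nonneg_right ?_
      (Real.rpow_nonneg hK0.le _)) hA0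
    exact pow_le_pow_right₀ hZ1r (by omega)
  obtain ⟨i, hi⟩ : ∃ i, i = (j + 1) / 2 := ⟨_, rfl⟩
  obtain ⟨i', hi'⟩ : ∃ i', i' = j + 1 - i := ⟨_, rfl⟩
  have hii : i + i' = j + 1 := by omega
  obtain ⟨T, hT⟩ : ∃ T, T = TT (ed ∘ σ) ω A δ (K * (q * ms d L)) := ⟨_, rfl⟩
  obtain ⟨P, hP⟩ : ∃ P, P = PP (ed ∘ σ) δ (K * (q * ms d L)) := ⟨_, rfl⟩
  have hbs : ∀ (ω : ℕ → Bool) (A : Finset (Fin d → ZMod L)) (n : ℕ),
      BS (TT (ed ∘ σ) ω A δ n) := by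
    intro ω A n
    have h := Pool.Agent.Q68.LC.bas2 _ (ed ∘ σ) ω A δ hδ.le hδ1
    exact ⟨h.1 n, fun x => (h.2.1 n x).le, fun y => (h.2.2.1 n y).le⟩
  have bT : BS T := by rw [hT]; exact hbs _ _ _
  have bP : BS P := by rw [hP]; exact hbs _ _ _
  -- sup bounds
  obtain ⟨J, hJ⟩ : ∃ J : ℝ, J = (j : ℝ) + 1 := ⟨_, rfl⟩
  have hJ0 : 0 < J := by rw [hJ]; positivity
  obtain ⟨Y, hY⟩ : ∃ Y : ℝ, Y = Z * (Z : ℝ) ^ m1 := ⟨_, rfl⟩
  obtain ⟨s, hs⟩ : ∃ s : ℝ, s = Y / (J * K) := ⟨_, rfl⟩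
  have hPm : (1 : ℝ) ≤ (Z : ℝ) ^ m1 := one_le_pow₀ (by linarith)
  have hY0 : 0 ≤ Y := by rw [hY]; positivity
  have hs0 : 0 ≤ s := by rw [hs]; exact div_nonneg hY0 (mul_pos hJ0 hK0).le
  have hCfZ : 6 * Cf ≤ Z := by
    have h3 : 6 * Cf ≤ (⌈6 * Cf⌉₊ : ℝ) := Nat.le_ceil _
    have h4 : (⌈6 * Cf⌉₊ : ℝ) ≤ Z := by
      have : ⌈6 * Cf⌉₊ ≤ Z := by omega
      exact_mod_cast this
    linarith
  have hChZ : Ch ≤ Z := by
    have h3 : Ch ≤ (⌈Ch⌉₊ : ℝ) := Nat.le_ceil _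
    have h4 : (⌈Ch⌉₊ : ℝ) ≤ Z := by
      have : ⌈Ch⌉₊ ≤ Z := by omega
      exact_mod_cast this
    linarith
  have hnat : ∀ k : ℕ, k + 1 ≤ K → j + 1 ≤ 3 * (k + 1) → (0 : ℝ) < (k : ℝ) + 1 ∧
      J ≤ 3 * ((k : ℝ) + 1) ∧ ((k : ℝ) + 1) * K ≤ (L : ℝ) ^ d := by
    intro k hk hjk
    refine ⟨by positivity, ?_, ?_⟩
    · rw [hJ]
      exact_mod_cast hjk
    · refine le_trans (mul_le_mul_of_nonneg_right ?_ hK0.le) hKLr
      exact_mod_cast hk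
  have hsT : ∀ n, 1 ≤ n → n ≤ K → j + 1 ≤ 3 * n → ∀ x y,
      ((dg (univ \ A) * T) ^ n) x y ≤ s := by
    intro n hn hnK hjn x y
    obtain ⟨k, rfl⟩ : ∃ k, n = k + 1 := ⟨n - 1, by omega⟩
    obtain ⟨g1, g2, g3⟩ := hnat k hnK hjn
    rw [pow_succ', Matrix.mul_assoc]
    have e : (dg (univ \ A) * (T * (dg (univ \ A) * T) ^ k)) x y =
        (if x ∈ univ \ A then 1 else 0) * (T * (dg (univ \ A) * T) ^ k) x y := by
      unfold dg
      rw [Matrix.diagonal_mul]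
    rw [e]
    split_ifs with hx
    · rw [one_mul]
      have h := hq1 q (by omega) σ hσ δ h1 h2 ω A hEv (univ \ A) x y sdiff_disjoint
        (mem_sdiff.1 hx).2 k
      rw [← hT] at h
      refine h.trans ?_
      rw [hs, hY]
      exact numY2 Z _ K ((k : ℝ) + 1) J _ (by positivity) hK0 g1 hJ0 g2 g3 hZ6
    · rw [zero_mul]
      exact hs0
  have hsP : ∀ n, 1 ≤ n → n ≤ K → j + 1 ≤ 3 * n → ∀ x y, (P ^ n) x y ≤ s := by
    intro n hn hnK hjn x y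
    obtain ⟨k, rfl⟩ : ∃ k, n = k + 1 := ⟨n - 1, by omega⟩
    obtain ⟨g1, g2, g3⟩ := hnat k hnK hjn
    rw [hP, PP_pow hσ hδ.le hδ1]
    have hle : (k + 1) * K * q ≤ K * K * q :=
      Nat.mul_le_mul_right _ (Nat.mul_le_mul_right _ hnK)
    have h := (hq3 q (by omega) σ hσ δ h1 h2).1 ((k + 1) * K * q) hle x y
    rw [Nat.mul_assoc ((k + 1) * K)] at h
    refine h.trans ?_
    rw [hs, hY]
    refine numZ2 d hd Z Cf K ((k : ℝ) + 1) J _ _ _ (by linarith) hK0 g1 hJ0 g2 g3 hCfZ hPm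
      (by linarith) ?_
    push_cast
    have h5 : 0 ≤ ((k : ℝ) + 1) * K := by positivity
    calc ((k : ℝ) + 1) * K = ((k : ℝ) + 1) * K * 1 := by ring
      _ ≤ ((k : ℝ) + 1) * K * (δ * q) := mul_le_mul_of_nonneg_left h1 h5
      _ = ((k : ℝ) + 1) * K * q * δ := by ring
  -- the Hilbert-Schmidt norms
  obtain ⟨h, hh⟩ : ∃ h : ℝ, h = Ch * (Z + 1) * Real.sqrt (J * K) * s * A.card := ⟨_, rfl⟩
  have hρr : (ρ : ℝ) ≤ Z := by exact_mod_cast hρ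
  have hCh0 : 0 ≤ Ch := by linarith
  have hZ0 : (0 : ℝ) ≤ (Z : ℝ) + 1 := by linarith
  have hh0 : 0 ≤ h := by
    rw [hh]
    exact mul_nonneg (mul_nonneg (mul_nonneg (mul_nonneg hCh0 hZ0) (Real.sqrt_nonneg _)) hs0)
      (Nat.cast_nonneg _)
  have hhs : ∀ n, 1 ≤ n → n ≤ K → n ≤ j + 1 → j + 1 ≤ 3 * n →
      ∑ x ∈ univ \ A, ∑ y, (((dg (univ \ A) * T) ^ n) x y - (P ^ n) x y) ^ 2 ≤ h := by
    intro n hn hnK hnj hjn
    have h3 := hq4 q (by omega) σ hσ δ h1 h2 ω A ρ s (by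
      intro l hl a ha
      exact hEv.2.1 l hl a ha) hInv hs0 n hnK hn (by
        intro x _ y
        rw [← hT]
        exact hsT n hn hnK hjn x y) (by
        rw [← hP]
        exact hsP n hn hnK hjn)
    rw [← hT, ← hP] at h3
    refine h3.trans ?_
    rw [hh]
    have e0 : (n : ℝ) ≤ J := by
      rw [hJ]
      exact_mod_cast hnj
    have e1 : Real.sqrt ((n : ℝ) * K) ≤ Real.sqrt (J * K) :=
      Real.sqrt_le_sqrt (mul_le_mul_of_nonneg_right e0 hK0.le)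
    have e2 : (ρ : ℝ) + 1 ≤ Z + 1 := by linarith
    refine mul_le_mul_of_nonneg_right (mul_le_mul_of_nonneg_right (mul_le_mul
      (mul_le_mul_of_nonneg_left e2 hCh0) e1 (Real.sqrt_nonneg _) (mul_nonneg hCh0 hZ0)) hs0)
      (Nat.cast_nonneg _)
  -- the trace
  have hzero : ∀ x ∈ univ \ A, ∀ y, y ∉ univ \ A → T x y = 0 := by
    intro x hx y hy
    have hx' : x ∉ A := (mem_sdiff.1 hx).2
    have hy' : y ∈ A := by
      by_contra hc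
      exact hy (mem_sdiff.2 ⟨mem_univ _, hc⟩)
    rw [← inv_image hInv] at hy'
    rw [hT]
    exact (Pool.Agent.Q68.LC.bas2 _ (ed ∘ σ) ω A δ hδ.le hδ1).2.2.2.2.1 _ x hx' y hy'
  have key := hTRM (Fin d → ZMod L) (univ \ A) T P s h i i' bT bP (by omega) (by omega) hzero
    hs0 hh0 (hsT i (by omega) (by omega) (by omega)) (hsT i' (by omega) (by omega) (by omega))
    (hsP i (by omega) (by omega) (by omega)) (hsP i' (by omega) (by omega) (by omega))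
    (hhs i (by omega) (by omega) (by omega) (by omega))
    (hhs i' (by omega) (by omega) (by omega) (by omega))
  rw [hii] at key
  rw [tr_dg, ← hT, ← hP]
  refine key.trans ?_
  have hcV : (Fintype.card (Fin d → ZMod L) : ℝ) = (L : ℝ) ^ d := by
    rw [Fintype.card_fun, ZMod.card, Fintype.card_fin]
    push_cast
    rfl
  have hcA : ((univ \ (univ \ A)).card : ℝ) = A.card := by
    rw [sdiff_sdiff_right_self]
    simp
  rw [hcV, hcA, hh]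
  obtain ⟨t, ht⟩ : ∃ t : ℝ, t = (K : ℝ) ^ (1 / 4 : ℝ) := ⟨_, rfl⟩
  obtain ⟨u, hu⟩ : ∃ u : ℝ, u = J ^ (1 / 4 : ℝ) := ⟨_, rfl⟩
  have hK1' : (1 : ℝ) ≤ K := by exact_mod_cast hK1
  have hJ1' : (1 : ℝ) ≤ J := by
    rw [hJ]
    linarith [(Nat.cast_nonneg j : (0 : ℝ) ≤ (j : ℝ))]
  have ht1 : 1 ≤ t := by
    rw [ht]
    exact Real.one_le_rpow hK1' (by norm_num)
  have hu1 : 1 ≤ u := by
    rw [hu]
    exact Real.one_le_rpow hJ1' (by norm_num)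
  have ht4 : (K : ℝ) = t ^ 4 := by
    rw [ht, ← Real.rpow_natCast, ← Real.rpow_mul hK0.le]
    norm_num
  have hu4 : J = u ^ 4 := by
    rw [hu, ← Real.rpow_natCast, ← Real.rpow_mul hJ0.le]
    norm_num
  have htn : (K : ℝ) ^ (-(1 / 4) : ℝ) = t⁻¹ := by
    rw [Real.rpow_neg hK0.le, ← ht]
  have hun : J ^ (-(3 / 4) : ℝ) = (u ^ 3)⁻¹ := by
    have h34 : (1 / 4 : ℝ) * ((3 : ℕ) : ℝ) = 3 / 4 := by norm_num
    have h5 : u ^ 3 = J ^ (3 / 4 : ℝ) := by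
      rw [hu, ← Real.rpow_natCast, ← Real.rpow_mul hJ0.le, h34]
    rw [Real.rpow_neg hJ0.le, h5]
  have hfin := numX2 Z Ch K J A.card ((L : ℝ) ^ d) s t u Y (by linarith) hChZ hCh0 ht1 hu1 ht4 hu4
    (Nat.cast_nonneg _) (by positivity) hY0 hs
  refine hfin.trans ?_
  rw [← hJ, htn, hun, hY]
  have hle : (Z : ℝ) ^ (m1 + 3) ≤ (Z : ℝ) ^ (m1 + m2 + 3) :=
    pow_le_pow_right₀ hZ1r (by omega)
  have hWn : 0 ≤ (u ^ 3)⁻¹ * t⁻¹ * ((A.card : ℝ) + (L : ℝ) ^ d / K) := by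
    have hu0 : 0 ≤ u := by linarith
    have ht0 : 0 ≤ t := by linarith
    exact mul_nonneg (mul_nonneg (inv_nonneg.2 (pow_nonneg hu0 3)) (inv_nonneg.2 ht0)) hA0
  calc (Z : ℝ) ^ 2 * (Z * (Z : ℝ) ^ m1) * ((u ^ 3)⁻¹ * t⁻¹ * ((A.card : ℝ) + (L : ℝ) ^ d / K)) =
        (Z : ℝ) ^ (m1 + 3) * ((u ^ 3)⁻¹ * t⁻¹ * ((A.card : ℝ) + (L : ℝ) ^ d / K)) := by ring
    _ ≤ (Z : ℝ) ^ (m1 + m2 + 3) * ((u ^ 3)⁻¹ * t⁻¹ * ((A.card : ℝ) + (L : ℝ) ^ d / K)) :=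
        mul_le_mul_of_nonneg_right hle hWn
    _ = _ := by ring

end Pool.Agent.H333.PN
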